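import Pool.Agent.PDP.Main

/-!
Partitions into `d`-th powers, `d ≥ 2`: both parities occur infinitely often, and for every
modulus `m ≥ 2` the sequence modulo `m` is not eventually periodic.
-/

set_option autoImplicit false

namespace Pool.Agent.Results.MP_9e321c_nt.ParityNonPeriodic

open Pool.Agent.PDP

/-- `pd d n` is the number of partitions of `n` into `d`-th powers of positive integers -/
noncomputable def pd (d n : ℕ) : ℕ :=
  Nat.card {p : Nat.Partition n // ∀ i ∈ p.parts, ∃ k : ℕ, k ^ d = i}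

lemma not_periodic (d m : ℕ) (hd : 2 ≤ d) (hm : 2 ≤ m) (T N : ℕ) (hT : 0 < T) :
    ∃ n, N ≤ n ∧ pd d (n + T) % m ≠ pd d n % m := by
  by_contra hcon
  push Not at hcon
  apply not_per_prime d m.minFac hd (Nat.minFac_prime (by omega)) T N hT
  intro n hn
  have h := hcon n hn
  unfold pd at h
  rw [card_eq, card_eq] at h
  exact Nat.ModEq.of_dvd (Nat.minFac_dvd m) h

lemma infinite_ne (d m : ℕ) (hd : 2 ≤ d) (hm : 2 ≤ m) (r : ℕ) :
    {n : ℕ | pd d n % m ≠ r}.Infinite := by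
  rw [Set.infinite_iff_exists_gt]
  intro N
  obtain ⟨n, hn, hne⟩ := not_periodic d m hd hm 1 (N + 1) one_pos
  by_cases h : pd d n % m = r
  · refine ⟨n + 1, ?_, by omega⟩
    show pd d (n + 1) % m ≠ r
    rw [← h]
    exact hne
  · exact ⟨n, h, by omega⟩

theorem result :
    (∀ d : ℕ, 2 ≤ d → ∀ r : ℕ, r < 2 → {n : ℕ | pd d n % 2 = r}.Infinite) ∧
    (∀ d : ℕ, 2 ≤ d → ∀ m : ℕ, 2 ≤ m → ∀ T : ℕ, 1 ≤ T → ∀ N : ℕ,
      ∃ n : ℕ, N ≤ n ∧ pd d (n + T) % m ≠ pd d n % m) ∧
    (∀ d : ℕ, 2 ≤ d → ∀ m : ℕ, 2 ≤ m → ∃ r s : ℕ, r < m ∧ s < m ∧ r ≠ s ∧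
      {n : ℕ | pd d n % m = r}.Infinite ∧ {n : ℕ | pd d n % m = s}.Infinite) := by
  refine ⟨?_, ?_, ?_⟩
  · intro d hd r hr
    refine (infinite_ne d 2 hd le_rfl (1 - r)).mono ?_
    intro n hn
    have h1 : pd d n % 2 ≠ 1 - r := hn
    show pd d n % 2 = r
    omega
  · intro d hd m hm T hT N
    exact not_periodic d m hd hm T N hT
  · intro d hd m hm
    have hcov : ∀ S : Set ℕ, S.Infinite → ∃ r, r < m ∧ (S ∩ {n | pd d n % m = r}).Infinite := by
      intro S hS
      by_contra hcon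
      push Not at hcon
      apply hS
      have : S ⊆ ⋃ r ∈ Finset.range m, (S ∩ {n | pd d n % m = r}) := by
        intro n hn
        rw [Set.mem_iUnion₂]
        exact ⟨pd d n % m, Finset.mem_range.2 (Nat.mod_lt _ (by omega)), hn, rfl⟩
      refine Set.Finite.subset ?_ this
      refine Set.Finite.biUnion (Finset.finite_toSet _) ?_
      intro r hr
      exact hcon r (Finset.mem_range.1 hr)
    obtain ⟨r, hr, hri⟩ := hcov Set.univ Set.infinite_univ
    obtain ⟨s, hs, hsi⟩ := hcov _ (infinite_ne d m hd hm r)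
    refine ⟨r, s, hr, hs, ?_, hri.mono Set.inter_subset_right, hsi.mono Set.inter_subset_right⟩
    rintro rfl
    apply hsi
    have : {n : ℕ | pd d n % m ≠ r} ∩ {n | pd d n % m = r} = ∅ := by
      ext n
      simp
    rw [this]
    exact Set.finite_empty

end Pool.Agent.Results.MP_9e321c_nt.ParityNonPeriodic
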